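import Pool.Agent.NH15.TS.T4

/-!
# Cramér's asymptotic formula and the whole tail law for the gaps in unions of `k` generic translates of the primes

Cramér's prediction `G(N) ~ (log N) ^ 2` for the maximal gap of the primes is the case `k = 1` of the prediction
`(log N) ^ 2 / k` for the union `U` of `k` translates of the primes, a set of the density `k / log N`; and the number of
the `n ≤ N` such that `(n, n + y]` contains no element of `U` is predicted to be `N exp (- k y / log N)`. Both predictions
are proved for almost all `k`-tuples of translates in `[1, N]` with `k ≥ (log N) ^ (1 + δ)`, the second one with an error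
`1 + o(1)` in the exponent for all `y` from `1` up to the maximal gap.

From the starting files: the prime number theorem and Selberg's sieve for pairs (`Pool.Agent.W301.SS`,
`Pool.Agent.H373R2.BH`), the sieve for tuples (`Pool.Agent.H646.TuplesM`). New (`Pool.Agent.NH15.UT`,
`Pool.Agent.NH15.TS`): the rest.
-/

set_option autoImplicit false

namespace Pool.Agent.Results.MP_7b323f_nt.CramerLawForTranslates

open Finset Filter

open Classical in
/-- The number of the `i` for which the interval `(n + b i, n + b i + y]` contains a prime. It is positive exactly when the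
interval `(n, n + y]` contains an element of the union `U b` of the `k` sets `{m | m + b i is a prime}`. -/
noncomputable def hits {k : ℕ} (b : Fin k → ℕ) (y n : ℕ) : ℕ :=
  (univ.filter (fun i : Fin k => ∃ p : ℕ, p.Prime ∧ n + b i < p ∧ p ≤ n + b i + y)).card

open Classical in
/-- The number of the `k`-tuples of integers in `[1, N]` with the property `E`. -/
noncomputable def numTuples (N k : ℕ) (E : (Fin k → ℕ) → Prop) : ℝ :=
  (((Fintype.piFinset fun _ : Fin k => Icc 1 N).filter E).card : ℝ)

open Classical in
/-- The number of the integers `n` in `[1, N]` for which the interval `(n, n + y]` contains no element of the union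
`U b` of the sets `{m | m + b i is a prime}`. -/
noncomputable def numEmpty {k : ℕ} (b : Fin k → ℕ) (y N : ℕ) : ℝ :=
  (((Icc 1 N).filter (fun n => hits b y n = 0)).card : ℝ)

/-- The `k`-tuple `b` has the following two properties.

* If `n ≤ N` and `y ≥ (1 + ε) log ^ 2 N / k` then the interval `(n, n + y]` contains an element of `U b`.
* If `1 ≤ y ≤ (1 - ε) log ^ 2 N / k` then the number of the `n` in `[1, N]` for which `(n, n + y]` contains no element of
  `U b` lies between `N exp (- (1 + ε) k y / log N)` and `N exp (- (1 - ε) k y / log N)`. -/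
def Good (ε : ℝ) (N : ℕ) {k : ℕ} (b : Fin k → ℕ) : Prop :=
  (∀ n y : ℕ, n ≤ N → (1 + ε) * Real.log N ^ 2 / k ≤ y → hits b y n ≠ 0) ∧
  (∀ y : ℕ, 1 ≤ y → (y : ℝ) ≤ (1 - ε) * Real.log N ^ 2 / k →
    N * Real.exp (-((1 + ε) * (k * y / Real.log N))) ≤ numEmpty b y N ∧
    numEmpty b y N ≤ N * Real.exp (-((1 - ε) * (k * y / Real.log N))))

lemma prime_iff (m y : ℕ) : (∃ p : ℕ, p.Prime ∧ m < p ∧ p ≤ m + y) ↔ NH15.UT.HT y m := by
  unfold NH15.UT.HT W301.SS.pn
  rw [card_pos]
  constructor
  · rintro ⟨p, hp, h1, h2⟩
    exact ⟨p, by simp [hp]; omega⟩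
  · rintro ⟨p, hp⟩
    simp at hp
    exact ⟨p, hp.2, by omega, by omega⟩

lemma hits_eq {k : ℕ} (b : Fin k → ℕ) (y n : ℕ) : hits b y n = NH15.UT.hits b y n := by
  unfold hits NH15.UT.hits
  congr 1
  ext i
  simp only [mem_filter, mem_univ, true_and]
  exact prime_iff _ _

theorem result : ∀ ε δ : ℝ, 0 < ε → ε < 1 → 0 < δ → ∀ A : ℕ, ∃ N₀ : ℕ, ∀ N : ℕ, N₀ ≤ N →
    ∀ k : ℕ, Real.log N ^ (1 + δ) ≤ k →
      numTuples N k (fun b => ¬ Good ε N b) ≤ (N : ℝ) ^ k / Real.log N ^ A := by
  classical
  intro ε δ hε hε1 hδ A
  obtain ⟨N0, hN0⟩ := Filter.eventually_atTop.1 (NH15.TS.final ε δ hε hε1 hδ A)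
  refine ⟨max N0 3, fun N hN k hk => ?_⟩
  have h1 := hN0 N (by omega) k hk
  have hN3 : (3 : ℝ) ≤ N := by
    have : 3 ≤ N := by omega
    exact_mod_cast this
  have hL : 0 < Real.log N := Real.log_pos (by linarith)
  have hk0 : (0 : ℝ) < k := lt_of_lt_of_le (by positivity) hk
  refine le_trans (NH15.UT.numT_mono N k ?_) h1
  intro b hb hcon
  apply hb
  refine ⟨fun n y hn hy => ?_, fun y hy1 hy2 => ?_⟩
  · rw [div_le_iff₀ hk0] at hy
    rw [hits_eq]
    exact hcon.1 n y hn (by linarith)
  · rw [le_div_iff₀ hk0] at hy2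
    have h2 := hcon.2 y hy1 (by linarith)
    have e : numEmpty b y N = (((Icc 1 N).filter (fun n => NH15.UT.hits b y n = 0)).card : ℝ) := by
      unfold numEmpty
      congr 2
      apply filter_congr
      intro n _
      rw [hits_eq]
    rw [e]
    exact h2

end Pool.Agent.Results.MP_7b323f_nt.CramerLawForTranslates
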