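import Pool.Agent.NH15.UT.U4

/-!
# The order of the maximal gap in the union of `k` generic translates of the primes

Cramér's prediction `G(N) = (log N) ^ (2 + o(1))` for the maximal gap of the primes is the case `k = 1` of
the prediction `log ^ 2 N / k` for the maximal gap in `[1, N]` of the union of `k` translates of the primes. Here it is
proved, up to a constant, for almost all `k`-tuples of translates with `k ≥ (log N) ^ (1 + δ)`, and the upper bound for
all `k ≥ C log N`.

From the starting files: the prime number theorem and Selberg's sieve for pairs in short intervals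
(`Pool.Agent.W301.SS`, `Pool.Agent.H373R2.BH`), the sieve for tuples (`Pool.Agent.H646.TuplesM`). New
(`Pool.Agent.NH15.UT`): the rest.
-/

set_option autoImplicit false

namespace Pool.Agent.Results.MP_7b323f_nt.CramerOrderForUnions

open Finset Filter

open Classical in
/-- The number of the `i` for which the interval `(n + b i, n + b i + y]` contains a prime. It is positive exactly when the
interval `(n, n + y]` contains an element of the union `U b` of the `k` sets `{m | m + b i is a prime}`. -/
noncomputable def hits {k : ℕ} (b : Fin k → ℕ) (y n : ℕ) : ℕ :=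
  (univ.filter (fun i : Fin k => ∃ p : ℕ, p.Prime ∧ n + b i < p ∧ p ≤ n + b i + y)).card

open Classical in
/-- The number of the `k`-tuples of integers in `[1, N]` with the property `E`. -/
noncomputable def numTuples (N k : ℕ) (E : (Fin k → ℕ) → Prop) : ℝ :=
  (((Fintype.piFinset fun _ : Fin k => Icc 1 N).filter E).card : ℝ)

open Classical in
/-- The number of the integers `n` in `[1, N]` for which the interval `(n, n + y]` contains no element of the union
`U b` of the sets `{m | m + b i is a prime}`. -/
noncomputable def numEmpty {k : ℕ} (b : Fin k → ℕ) (y N : ℕ) : ℝ :=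
  (((Icc 1 N).filter (fun n => hits b y n = 0)).card : ℝ)

/-- The `k`-tuple `b` has the following two properties.

* For all `n ≤ N` and `y ≥ C log ^ 2 N / k` at least `c k min (1, y / log N)` of the `k` intervals
  `(n + b i, n + b i + y]` contain a prime.
* For every `y ≤ c log ^ 2 N / k` with `y ≤ (log N) ^ (1 - δ)` there are at least `√N` integers `n` in `[1, N]` for which
  none of the `k` intervals contains a prime. -/
def Good (c C δ : ℝ) (N : ℕ) {k : ℕ} (b : Fin k → ℕ) : Prop :=
  (∀ n y : ℕ, n ≤ N → C * Real.log N ^ 2 / k ≤ y → c * k * min 1 (y / Real.log N) ≤ hits b y n) ∧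
  (∀ y : ℕ, (y : ℝ) ≤ c * Real.log N ^ 2 / k → (y : ℝ) ≤ Real.log N ^ (1 - δ) → Real.sqrt N ≤ numEmpty b y N)

lemma prime_iff (m y : ℕ) : (∃ p : ℕ, p.Prime ∧ m < p ∧ p ≤ m + y) ↔ NH15.UT.HT y m := by
  unfold NH15.UT.HT W301.SS.pn
  rw [card_pos]
  constructor
  · rintro ⟨p, hp, h1, h2⟩
    exact ⟨p, by simp [hp]; omega⟩
  · rintro ⟨p, hp⟩
    simp at hp
    exact ⟨p, hp.2, by omega, by omega⟩

lemma hits_eq {k : ℕ} (b : Fin k → ℕ) (y n : ℕ) : hits b y n = NH15.UT.hits b y n := by
  unfold hits NH15.UT.hits
  congr 1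
  ext i
  simp only [mem_filter, mem_univ, true_and]
  exact prime_iff _ _

theorem result : ∃ c C : ℝ, 0 < c ∧ 0 < C ∧ ∀ δ : ℝ, 0 < δ → ∀ A : ℕ, ∃ N₀ : ℕ, ∀ N : ℕ, N₀ ≤ N →
    ∀ k : ℕ, C * Real.log N ≤ k →
      numTuples N k (fun b => ¬ Good c C δ N b) ≤ (N : ℝ) ^ k / Real.log N ^ A := by
  classical
  obtain ⟨c, C, hc, hC, h⟩ := NH15.UT.final
  refine ⟨c, C, hc, hC, fun δ hδ A => ?_⟩
  obtain ⟨N0, hN0⟩ := Filter.eventually_atTop.1 (h δ hδ A)
  refine ⟨max N0 3, fun N hN k hk => ?_⟩
  have h1 := hN0 N (by omega) k hk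
  have hN3 : (3 : ℝ) ≤ N := by
    have : 3 ≤ N := by omega
    exact_mod_cast this
  have hL : 0 < Real.log N := Real.log_pos (by linarith)
  have hk0 : (0 : ℝ) < k := lt_of_lt_of_le (by positivity) hk
  refine le_trans (NH15.UT.numT_mono N k ?_) h1
  intro b hb hcon
  apply hb
  refine ⟨fun n y hn hy => ?_, fun y hy1 hy2 => ?_⟩
  · rw [div_le_iff₀ hk0] at hy
    rw [hits_eq]
    exact hcon.1 n y hn (by linarith)
  · rw [le_div_iff₀ hk0] at hy1
    refine (hcon.2 y (by linarith) hy2).trans ?_
    unfold numEmpty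
    apply Nat.cast_le.2
    apply card_le_card
    intro n hn
    rw [mem_filter] at hn ⊢
    rwa [hits_eq]

end Pool.Agent.Results.MP_7b323f_nt.CramerOrderForUnions
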