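import Pool.Agent.NH18.SC.Fin
import Pool.Agent.NH18.SC.Max
import Pool.Agent.NH18.SC.BadM
import Pool.Agent.NH18.SC.Jump
import Pool.Agent.NH18.SC.Base
import Pool.Agent.NH18.SC.Grid
import Pool.Agent.NH18.SC.Equi

/-!
# The primes around almost every prime at all scales from `log N` on

For almost all primes `p ≤ N` the density of the primes in `(p - L, p + L]` is of the order `1 / log N`
at ALL scales `L = 2 ^ l` between `log N` and `p`, and it is constant up to a factor `1 ± η`, even for all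
subintervals of length at least `L / K`, outside of a bounded number of exceptional scales: the scales are
divided into boundedly many plateaus.  In particular, at all but boundedly many scales `L` every gap between
primes within distance `L` of `p` is shorter than `L / K`.

Proof: the primes have bounded energy at the scale `log N` (sieve upper bound for pairs of primes), the
energy decrement over the dyadic scales, a jump inequality and a maximal inequality on two shifted dyadic
grids.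
-/

namespace Pool.Agent.Results.MP_7b323f_nt.RegularityAtAllScales

/-- The number of primes in `(u, v]`. -/
def primesIn (u v : ℕ) : ℕ := ((Finset.Ioc u v).filter Nat.Prime).card

/-- **The primes around `p` are regular at all scales `2 ^ l` with `log N ≤ 2 ^ l ≤ p`.**
(1) The number of primes in `(p - 2 ^ l, p + 2 ^ l]` lies between `ε / C` and `C / ε` times
`2 ^ l / log N`.
(2) There is a set `B` of at most `C K log(2 K / η) / (η ^ 3 ε ^ 2)` exceptional scales such that for all
scales `l ≤ l'` with no element of `B` in `[l, l']` EVERY interval `(x, x + h]` of length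
`h ≥ 2 ^ l / K` inside `(p - 2 ^ l, p + 2 ^ l]` has the same density of primes as
`(p - 2 ^ l', p + 2 ^ l']`, up to a factor `1 ± η`. -/
def Regular (C : ℝ) (N : ℕ) (ε K η : ℝ) (p : ℕ) : Prop :=
  (∀ l : ℕ, Real.log N ≤ 2 ^ l → 2 ^ l ≤ p →
    ε / C * (2 ^ l / Real.log N) ≤ primesIn (p - 2 ^ l) (p + 2 ^ l) ∧
      (primesIn (p - 2 ^ l) (p + 2 ^ l) : ℝ) ≤ C / ε * (2 ^ l / Real.log N)) ∧
  ∃ B : Finset ℕ, (B.card : ℝ) ≤ C * K * Real.log (2 * K / η) / (η ^ 3 * ε ^ 2) ∧
    ∀ l l' : ℕ, Real.log N ≤ 2 ^ l → l ≤ l' → 2 ^ l' ≤ p → (∀ i ∈ B, i < l ∨ l' < i) →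
      ∀ x h : ℕ, p ≤ x + 2 ^ l → x + h ≤ p + 2 ^ l → (2 : ℝ) ^ l ≤ K * h →
        |(primesIn x (x + h) : ℝ) * (2 * 2 ^ l') - h * primesIn (p - 2 ^ l') (p + 2 ^ l')| ≤
          η * (h * primesIn (p - 2 ^ l') (p + 2 ^ l'))

/-- **Regularity at all scales around almost every prime.** There is an absolute constant `C` such that for
all `N ≥ 2`, `0 < ε ≤ 1`, `K ≥ 1`, `0 < η ≤ 1`, all but at most `ε N / log N` of the primes `p ≤ N` satisfy
`Regular C N ε K η p`. -/
theorem result : ∃ C : ℝ, 0 < C ∧ ∀ N : ℕ, 2 ≤ N → ∀ ε K η : ℝ, 0 < ε → ε ≤ 1 → 1 ≤ K → 0 < η → η ≤ 1 →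
    ({p : ℕ | p.Prime ∧ p ≤ N ∧ ¬ Regular C N ε K η p}.ncard : ℝ) ≤ ε * (N / Real.log N) := by
  classical
  obtain ⟨C, hC, h⟩ := Pool.Agent.NH18.SC.main Pool.Agent.NH18.SC.t_maxL Pool.Agent.NH18.SC.t_maxU
    Pool.Agent.NH18.SC.t_badm Pool.Agent.NH18.SC.t_jump Pool.Agent.NH18.SC.t_base
    Pool.Agent.NH18.SC.t_grid Pool.Agent.NH18.SC.t_equi
  refine ⟨C, hC, fun N hN ε K η hε hε1 hK hη hη1 => ?_⟩
  have h1 := h N hN ε hε hε1 K hK η hη hη1
  refine le_trans (le_of_eq ?_) h1
  norm_cast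
  rw [← Set.ncard_coe_finset]
  congr 1
  ext p
  simp only [Finset.coe_filter, Finset.mem_Icc, Set.mem_ofPred_eq]
  constructor
  · rintro ⟨h1, h2, h3⟩
    exact ⟨⟨h1.one_lt.le, h2⟩, h1, h3⟩
  · rintro ⟨⟨_, h2⟩, h1, h3⟩
    exact ⟨h1, h2, h3⟩

end Pool.Agent.Results.MP_7b323f_nt.RegularityAtAllScales
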