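import Pool.Agent.NH74.AT.Fin

set_option autoImplicit false

/-!
# Unions of arbitrary translates of the primes have gaps of more than average order

There is `c > 0` such that for all large `N`, ALL integers `b_1, ..., b_k` with
`|b_i| ≤ exp (log² N)`, all `k`, `y` with `k y ≤ c log N log log N` and all integers `M` there is
an integer `n` in `(M, M + N]` such that every integer of the `k` intervals `(n + b_i, n + b_i + y]`
is divisible by a prime `p ≤ exp ((log N) ^ (1/20))` which is smaller than its absolute value. So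
the union of `k` arbitrary translates of the primes has gaps longer than `c log N log log N / k`,
which is `c log log N` times the average gap `log N / k`.

The case `y = 1` says that for every set of at most `c log N log log N` integers `b` some `n` in
`(M, M + N]` has all `n + b + 1` composite: additive complements of the primes have more than
`c log N log log N` elements up to `N`.
-/

namespace Pool.Agent.Results.MP_7b323f_nt.UnionsOfArbitraryTranslates

theorem result : ∃ c : ℝ, 0 < c ∧ ∃ N₀ : ℕ, ∀ N : ℕ, N₀ ≤ N →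
    ∀ (M : ℤ) (k y : ℕ) (b : Fin k → ℤ),
      (∀ i, |(b i : ℝ)| ≤ Real.exp ((Real.log N) ^ 2)) →
      (k : ℝ) * y ≤ c * (Real.log N * Real.log (Real.log N)) →
      ∃ n : ℤ, M < n ∧ n ≤ M + N ∧ ∀ i, ∀ m : ℤ, n + b i < m → m ≤ n + b i + y →
        ∃ p : ℕ, p.Prime ∧ (p : ℝ) ≤ Real.exp ((Real.log N) ^ (1 / 20 : ℝ)) ∧
          (p : ℤ) ∣ m ∧ (p : ℤ) < |m| := by
  obtain ⟨c₁, hc₁, N₁, h1⟩ := Pool.Agent.NH74.AT.translates
  refine ⟨c₁, hc₁, N₁, ?_⟩
  intro N hN M k y b hb hky
  obtain ⟨n, hn1, hn2, hn3⟩ := h1 N hN M k y b hb hky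
  exact ⟨n, hn1, hn2, fun i m hm1 hm2 => hn3 i m hm1 hm2⟩

end Pool.Agent.Results.MP_7b323f_nt.UnionsOfArbitraryTranslates
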